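import Pool.Agent.Helper35.PI2.St

set_option autoImplicit false

namespace Helper91.PI2

open Helper35.PI Helper35.PI2 MeasureTheory Set
open scoped ENNReal

/-- dyadic lower bound of the dissipation -/
theorem dyadic_RA2 (C Λ η T₁ : ℝ) (hC : 0 < C) (hΛ : 1 ≤ Λ) (hη : 0 < η) (hT : 0 < T₁) (e d : ℝ → ℝ → ℝ≥0∞)
    (hmono : ∀ R R' t : ℝ, 0 < R → R ≤ R' → t < 0 → e R t ≤ e R' t ∧ d R t ≤ d R' t)
    (hed : ∀ R t : ℝ, 0 < R → t < 0 → e R t ^ 2 ≤ ENNReal.ofReal (C * R ^ 2) * d R t)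
    (hc : ∀ s ≤ -T₁, ENNReal.ofReal η ≤ e (Λ * Real.sqrt (-s)) s) (k : ℕ) :
    ∀ R : ℝ, Λ * Real.sqrt (2 ^ k * T₁) ≤ R →
      ENNReal.ofReal (k * (η ^ 2 / (2 * C * Λ ^ 2))) ≤ ∫⁻ r in Icc (-(2 ^ k * T₁)) (-T₁), d R r := by
  induction k with
  | zero =>
    intro R _
    simp
  | succ k ih =>
    intro R hR
    have hk : (0 : ℝ) < 2 ^ k := by positivity
    have hkT : (0 : ℝ) < 2 ^ k * T₁ := by positivity
    have hk1 : (1 : ℝ) ≤ 2 ^ k := one_le_pow₀ (by norm_num)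
    have hk2 : (2 : ℝ) ^ (k + 1) * T₁ = 2 * (2 ^ k * T₁) := by ring
    have hR' : Λ * Real.sqrt (2 ^ k * T₁) ≤ R := by
      refine le_trans (mul_le_mul_of_nonneg_left (Real.sqrt_le_sqrt ?_) (by linarith)) hR
      rw [hk2]
      linarith
    have h1 := ih R hR'
    -- the new piece
    obtain ⟨c, hcdef⟩ : ∃ c : ℝ, c = η ^ 2 / (C * Λ ^ 2 * (2 ^ (k + 1) * T₁)) := ⟨_, rfl⟩
    have hc0 : 0 ≤ c := by rw [hcdef]; positivity
    have h2 : ENNReal.ofReal (η ^ 2 / (2 * C * Λ ^ 2)) ≤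
        ∫⁻ r in Ico (-(2 ^ (k + 1) * T₁)) (-(2 ^ k * T₁)), d R r := by
      have h3 : ENNReal.ofReal (η ^ 2 / (2 * C * Λ ^ 2)) =
          ∫⁻ r in Ico (-(2 ^ (k + 1) * T₁)) (-(2 ^ k * T₁)), ENNReal.ofReal c := by
        rw [setLIntegral_const, Real.volume_Ico, ← ENNReal.ofReal_mul hc0]
        congr 1
        rw [hcdef]
        have : T₁ ≠ 0 := hT.ne'
        have : C ≠ 0 := hC.ne'
        have : Λ ≠ 0 := by linarith
        field_simp
        ring
      rw [h3]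
      refine setLIntegral_mono' measurableSet_Ico (fun s hs => ?_)
      have hs1 : s ≤ -T₁ := by
        have := hs.2.le
        nlinarith
      have hs0 : 0 < -s := by linarith
      have hsq : 0 < Real.sqrt (-s) := Real.sqrt_pos.mpr hs0
      have hΛ0 : 0 < Λ := by linarith
      have hRs : Λ * Real.sqrt (-s) ≤ R := by
        refine le_trans (mul_le_mul_of_nonneg_left (Real.sqrt_le_sqrt ?_) hΛ0.le) hR
        have := hs.1
        linarith
      have h4 := (hmono (Λ * Real.sqrt (-s)) R s (mul_pos hΛ0 hsq) hRs (by linarith)).2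
      refine le_trans ?_ h4
      have h5 := hed (Λ * Real.sqrt (-s)) s (mul_pos hΛ0 hsq) (by linarith)
      have h6 : C * (Λ * Real.sqrt (-s)) ^ 2 = C * Λ ^ 2 * (-s) := by
        rw [mul_pow, Real.sq_sqrt hs0.le]
        ring
      rw [h6] at h5
      have h7 : ENNReal.ofReal (η ^ 2) ≤ ENNReal.ofReal (C * Λ ^ 2 * (-s)) * d (Λ * Real.sqrt (-s)) s := by
        refine le_trans ?_ h5
        rw [ENNReal.ofReal_pow hη.le]
        exact pow_le_pow_left' (hc s hs1) 2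
      have h8 : ENNReal.ofReal (η ^ 2) = ENNReal.ofReal (C * Λ ^ 2 * (-s)) *
          ENNReal.ofReal (η ^ 2 / (C * Λ ^ 2 * (-s))) := by
        rw [← ENNReal.ofReal_mul (by positivity)]
        congr 1
        have hne : C * Λ ^ 2 * (-s) ≠ 0 := by positivity
        rw [mul_div_cancel₀ _ hne]
      rw [h8] at h7
      have h9 : ENNReal.ofReal (η ^ 2 / (C * Λ ^ 2 * (-s))) ≤ d (Λ * Real.sqrt (-s)) s :=
        (ENNReal.mul_le_mul_iff_right (by
          rw [Ne, ENNReal.ofReal_eq_zero, not_le]; positivity) ENNReal.ofReal_ne_top).mp h7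
      refine le_trans (ENNReal.ofReal_le_ofReal ?_) h9
      rw [hcdef]
      refine div_le_div_of_nonneg_left (by positivity) (by positivity) ?_
      refine mul_le_mul_of_nonneg_left ?_ (by positivity)
      have := hs.1
      linarith
    have h10 : Icc (-(2 ^ (k + 1) * T₁)) (-T₁) =
        Ico (-(2 ^ (k + 1) * T₁)) (-(2 ^ k * T₁)) ∪ Icc (-(2 ^ k * T₁)) (-T₁) := by
      rw [Ico_union_Icc_eq_Icc]
      · rw [hk2]; linarith
      · nlinarith
    rw [h10, lintegral_union measurableSet_Icc]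
    · have h11 : ((k + 1 : ℕ) : ℝ) * (η ^ 2 / (2 * C * Λ ^ 2)) =
          η ^ 2 / (2 * C * Λ ^ 2) + k * (η ^ 2 / (2 * C * Λ ^ 2)) := by
        push_cast
        ring
      rw [h11, ENNReal.ofReal_add (by positivity) (by positivity)]
      exact add_le_add h2 h1
    · rw [Set.disjoint_left]
      intro x hx hx'
      exact absurd hx'.1 (not_le.mpr hx.2)

theorem hRA2 (hRA1 : StRA1) : StRA2 := by
  intro C δ hC hδ e d hfin hmono hint hed
  obtain ⟨B, hB, hRA⟩ := hRA1 C δ hC hδ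
  have hb : ∀ R t : ℝ, 0 < R → t < 0 → e R t ≤ ENNReal.ofReal B := by
    intro R t hR ht
    exact hRA (e R) (d R) R hR (fun t ht => hfin R t hR ht) (fun s₁ s₂ h h' => hint R s₁ s₂ hR h h')
      (fun t ht => hed R t hR ht) t ht
  -- existence of a good time
  have hgood : ∀ Λ η T₁ : ℝ, 1 ≤ Λ → 0 < η → 0 < T₁ → ∃ s ≤ -T₁,
      e (Λ * Real.sqrt (-s)) s ≤ ENNReal.ofReal η := by
    intro Λ η T₁ hΛ hη hT
    by_contra hcon
    push Not at hcon
    have hc : ∀ s ≤ -T₁, ENNReal.ofReal η ≤ e (Λ * Real.sqrt (-s)) s := fun s hs => (hcon s hs).le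
    obtain ⟨c, hcdef⟩ : ∃ c : ℝ, c = η ^ 2 / (2 * C * Λ ^ 2) := ⟨_, rfl⟩
    have hΛ0 : 0 < Λ := by linarith
    have hc0 : 0 < c := by rw [hcdef]; positivity
    obtain ⟨k, hk⟩ := exists_nat_gt ((B + C / Λ ^ 2) / (δ * c))
    have hdy := dyadic_RA2 C Λ η T₁ hC hΛ hη hT e d hmono hed hc k (Λ * Real.sqrt (2 ^ k * T₁)) le_rfl
    have hkT : (0 : ℝ) < 2 ^ k * T₁ := by positivity
    have hk1 : (1 : ℝ) ≤ 2 ^ k := one_le_pow₀ (by norm_num)
    have hRp : 0 < Λ * Real.sqrt (2 ^ k * T₁) := mul_pos hΛ0 (Real.sqrt_pos.mpr hkT)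
    have h1 := hint (Λ * Real.sqrt (2 ^ k * T₁)) (-(2 ^ k * T₁)) (-T₁) hRp (by nlinarith) (by linarith)
    have h2 : ENNReal.ofReal δ * ENNReal.ofReal (k * c) ≤
        ENNReal.ofReal B + ENNReal.ofReal (C / Λ ^ 2) := by
      calc ENNReal.ofReal δ * ENNReal.ofReal (k * c)
          ≤ ENNReal.ofReal δ * ∫⁻ r in Icc (-(2 ^ k * T₁)) (-T₁), d (Λ * Real.sqrt (2 ^ k * T₁)) r := by
            rw [hcdef]
            exact mul_le_mul' le_rfl hdy
        _ ≤ e (Λ * Real.sqrt (2 ^ k * T₁)) (-T₁) +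
            ENNReal.ofReal δ * ∫⁻ r in Icc (-(2 ^ k * T₁)) (-T₁), d (Λ * Real.sqrt (2 ^ k * T₁)) r :=
            le_add_self
        _ ≤ _ := h1
        _ ≤ ENNReal.ofReal B + ENNReal.ofReal (C / Λ ^ 2) := by
            refine add_le_add (hb _ _ hRp (by linarith)) (ENNReal.ofReal_le_ofReal ?_)
            rw [mul_pow, Real.sq_sqrt hkT.le, div_le_div_iff₀ (by positivity) (by positivity)]
            have : C * (-T₁ - -(2 ^ k * T₁)) ≤ C * (2 ^ k * T₁) := by
              refine mul_le_mul_of_nonneg_left ?_ hC.le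
              linarith
            have h3 := mul_le_mul_of_nonneg_right this (sq_nonneg Λ)
            linarith [h3]
    rw [← ENNReal.ofReal_mul hδ.le, ← ENNReal.ofReal_add hB.le (by positivity),
      ENNReal.ofReal_le_ofReal_iff (by positivity)] at h2
    rw [div_lt_iff₀ (by positivity)] at hk
    have : δ * (k * c) = k * (δ * c) := by ring
    linarith
  intro R t hR ht
  by_contra hne
  have hx : 0 < (e R t).toReal := ENNReal.toReal_pos hne (hfin R t hR ht).ne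
  obtain ⟨x, hxdef⟩ : ∃ x : ℝ, x = (e R t).toReal := ⟨_, rfl⟩
  rw [← hxdef] at hx
  have hex : e R t = ENNReal.ofReal x := by
    rw [hxdef, ENNReal.ofReal_toReal (hfin R t hR ht).ne]
  -- choose Λ
  obtain ⟨Λ, hΛ1, hΛ2⟩ : ∃ Λ : ℝ, 1 ≤ Λ ∧ C / Λ ^ 2 ≤ x / 4 := by
    refine ⟨max 1 (4 * C / x), le_max_left _ _, ?_⟩
    have h1 : (1 : ℝ) ≤ max 1 (4 * C / x) := le_max_left _ _
    have h2 : 4 * C / x ≤ max 1 (4 * C / x) := le_max_right _ _
    have h3 : max 1 (4 * C / x) ≤ max 1 (4 * C / x) ^ 2 := by nlinarith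
    rw [div_le_iff₀ (by positivity)]
    rw [div_le_iff₀ hx] at h2
    nlinarith
  obtain ⟨s, hs1, hs2⟩ := hgood Λ (x / 4) (max (-t) (R ^ 2)) hΛ1 (by linarith)
    (lt_max_of_lt_right (by positivity))
  have hst : s ≤ t := by
    have := le_max_left (-t) (R ^ 2)
    linarith
  have hsR : R ^ 2 ≤ -s := by
    have := le_max_right (-t) (R ^ 2)
    linarith
  have hs0 : 0 < -s := by linarith [sq_nonneg R]
  have hΛ0 : 0 < Λ := by linarith
  have hsq : 0 < Real.sqrt (-s) := Real.sqrt_pos.mpr hs0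
  have hRR : R ≤ Λ * Real.sqrt (-s) := by
    have h1 : R ≤ Real.sqrt (-s) := Real.le_sqrt_of_sq_le hsR
    nlinarith
  have hR' : 0 < Λ * Real.sqrt (-s) := mul_pos hΛ0 hsq
  have h1 := (hmono R (Λ * Real.sqrt (-s)) t hR hRR ht).1
  have h2 := hint (Λ * Real.sqrt (-s)) s t hR' hst ht
  have h3 : e R t ≤ ENNReal.ofReal (x / 4) + ENNReal.ofReal (x / 4) := by
    calc e R t ≤ e (Λ * Real.sqrt (-s)) t := h1
      _ ≤ _ := le_self_add
      _ ≤ _ := h2
      _ ≤ ENNReal.ofReal (x / 4) + ENNReal.ofReal (x / 4) := by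
          refine add_le_add hs2 (ENNReal.ofReal_le_ofReal (le_trans ?_ hΛ2))
          rw [mul_pow, Real.sq_sqrt hs0.le, div_le_div_iff₀ (by positivity) (by positivity)]
          have : C * (t - s) ≤ C * (-s) := mul_le_mul_of_nonneg_left (by linarith) hC.le
          have h3 := mul_le_mul_of_nonneg_right this (sq_nonneg Λ)
          linarith [h3]
  rw [hex, ← ENNReal.ofReal_add (by linarith) (by linarith), ENNReal.ofReal_le_ofReal_iff (by linarith)] at h3
  linarith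

end Helper91.PI2
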